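import Pool.Agent.D0H61.RO.Final
import Pool.Agent.D0H87.CP.Cnt2
import Pool.Agent.D0H42.CC.Zp

/-!
# Two simultaneous primes with one real parameter

The problem asks for infinitely many `m` such that `m ^ 2 + 1` and `m ^ 2 + 3` are both primes. Here the two leading
coefficients depend on ONE real number `α`: for almost every `α > 0` there are infinitely many `m`, which can moreover
be taken prime, such that `⌊γ₁ α ^ κ₁ m ^ 2⌋ + 1` and `⌊γ₂ α ^ κ₂ m ^ 2⌋ + 3` are both primes, for instance
`⌊α m ^ 2⌋ + 1` and `⌊α ^ 2 m ^ 2⌋ + 3`; the same for all powers `m ^ h` and all integers in place of `1` and `3`. For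
infinitely many `x` the number of these primes `m ≤ x` has the expected order of magnitude, at least
`δ x / (log x) ^ 3`.

When the two primes have two independent real parameters this follows from the metric theory of one prime (each
parameter is averaged for itself); here the same real number has to make both integer parts prime.

Proof. Let `N = M ^ h`. (1) First moment: the number of the triples of primes `(q, p, r)`, `M < q ≤ (1 + η) ^ (1 / h) M`,
with `|φ + κ log p + (1 - κ) h log q - log r| ≤ δ / N` is an integral over a product of three Dirichlet polynomials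
over primes; the one over `q` is controlled in sup norm at all frequencies up to `N ^ 4` (Vinogradov-Korobov, starting
library), which compensates the thinness of the set of the `q ^ h`, the other two in mean square. (2) Upper bound:
Selberg's sieve for both integer parts, for the elements of an arbitrary sparse set, in mean over `α`. (3) So in every
short interval the `α` with many solutions in a given scale have a positive proportion; Lebesgue's density theorem.
-/

set_option autoImplicit false

namespace Pool.Agent.Results.MP_2dba45_nt.OneRealParameter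

open Filter Topology MeasureTheory Finset
open Pool.Agent.D0H61.CC Pool.Agent.D0H61.RO

/-- Let `h ≥ 1` be an integer, `κ₁ ≠ κ₂` nonzero real numbers, `γ₁, γ₂ > 0`, `a, b` integers. For almost every real
`α > 0` the set of the primes `m` such that `⌊γ₁ α ^ κ₁ m ^ h⌋ + a` and `⌊γ₂ α ^ κ₂ m ^ h⌋ + b` are both primes
(`PP z`: the integer `z` is a prime) satisfies `Bg 3`: for some `δ > 0` and infinitely many `x` it has at least
`δ x / (log x) ^ 3` elements up to `x`; in particular it is infinite. -/
theorem result : ∀ h : ℕ, 1 ≤ h → ∀ (κ₁ κ₂ γ₁ γ₂ : ℝ) (a b : ℤ), κ₁ ≠ 0 → κ₂ ≠ 0 → κ₁ ≠ κ₂ →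
    0 < γ₁ → 0 < γ₂ → ∀ᵐ α : ℝ, 0 < α →
      Bg 3 {m : ℕ | m.Prime ∧ PP (⌊γ₁ * α ^ κ₁ * (m : ℝ) ^ h⌋ + a) ∧ PP (⌊γ₂ * α ^ κ₂ * (m : ℝ) ^ h⌋ + b)} :=
  gen5_of_cnt2 Pool.Agent.D0H42.CC.t_ZP
    (Pool.Agent.D0H87.CP.t_CNT2 Pool.Agent.D0H87.CC.t_TRI Pool.Agent.D0H87.CC.t_MS Pool.Agent.D0H42.CC.t_ZP)

end Pool.Agent.Results.MP_2dba45_nt.OneRealParameter
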