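import Pool.Agent.D0H68.TU.Asy2

/-!
# Simultaneous primes `m ^ 2 + 1`, `m ^ 2 + 3`: sequential random models with a growing sieve

The question is whether `m ^ 2 + 1` and `m ^ 2 + 3` are simultaneously prime for infinitely many `m`. We answer it,
with the expected (Hardy–Littlewood) asymptotic number, in sequential random models of the primes: the integers are
decided one after the other (the events `S n` are adapted to a filtration, no independence is assumed), and the
conditional probability, given the past, of choosing an integer `n + 1` without prime factors at most `z(n + 1)` is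
compared with `V(z(n + 1)) / log n`, where `V(y) = ∏_{q ≤ y} (1 - 1/q)⁻¹`. Here `z` is ANY function with
`z(n) ≤ n ^ θ₀` for large `n`, where `θ₀ > 0` is an absolute constant: the sieve may remove all integers with a prime
factor up to a power of `n`, and the model then has the right local densities for all primes `q ≤ n ^ θ₀`.

* If the conditional probability is at least `c V(z(n + 1)) / log n` for large `n` (`c > 0` may be random, nothing is
  assumed about the other integers), then almost surely `m ^ 2 + 1` and `m ^ 2 + 3` are both chosen for infinitely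
  many `m`, and for at least `κ E(x)` integers `m ≤ x` for all large `x`, where `E(x)` is the expected number.
* If only integers without prime factors at most `z` are chosen and the conditional probabilities are asymptotic to
  `V(z(n + 1)) / log n`, without any rate, then the number of the `m ≤ x` is almost surely asymptotic to `E(x)`.
* `E(x) ≥ κ x / (log x) ^ 4` for all `z`, and `E(x) ≥ κ x / (log x) ^ 2` if `z(n) ≥ n ^ θ'`, `θ' > 0`.
* If `z` is monotone and unbounded, `z(n) ≤ n ^ ε` for large `n` for every `ε > 0`, and `log z(2n) ~ log z(n)` (for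
  example `z(n) = ⌊log n⌋`), then `E(x)` is asymptotic to the Hardy–Littlewood prediction `(G / 4) x / (log x) ^ 2`,
  `G = ∏_q (1 - r(q)/q) (1 - 1/q)⁻²`, where `r(q)` is the number of the roots of `(m ^ 2 + 1) (m ^ 2 + 3)` modulo `q`;
  hence so is the number of the pairs, almost surely. The infinite product converges and is positive.

Proof. The pairs are treated in two stages; for each stage an exponential supermartingale with predictable weights
compares the number of the pairs which survive with the compensator. The expected numbers are bounded below by the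
fundamental lemma of the sieve and Mertens' theorem for the polynomial `(m ^ 2 + 1) (m ^ 2 + 3)`
(`Pool.Agent.D0H65.LP.t_SIV`, helper65, and `Pool.Agent.D0H13.LP.t_MERP`, helper13). The asymptotics of `E(x)` follow
from the fundamental lemma in dyadic blocks, Mertens' third theorem (`Pool.Agent.H305R2.mertens_three`) and the
convergence of the sums of the Jacobi symbols `(-1 | p) / p`, `(-3 | p) / p` (`Pool.Agent.Y882.SI.dyad`,
`Pool.Agent.Y781.JR.TT_conv`).
-/

set_option autoImplicit false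

open MeasureTheory Filter Finset
open scoped Topology

namespace Pool.Agent.Results.MP_2dba45_nt.SequentialSieveModels

open Pool.Agent.D0H68.SD Pool.Agent.D0H68.TU

/-- **The pairs `m ^ 2 + 1`, `m ^ 2 + 3` in sequential sieved models.**  There is an absolute constant `θ₀ > 0` with
the following properties.  Let `S n`, `n = 0, 1, …`, be events adapted to a filtration `ℱ` and let `z : ℕ → ℕ` be any
function with `z(n) ≤ n ^ θ₀` for large `n`.  (1) If almost surely the conditional probability of `S (n + 1)` given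
`ℱ n` is at least `c V(z(n + 1)) / log n` for some `c > 0` and all large `n` such that `n + 1` has no prime factor at
most `z(n + 1)`, then almost surely `m ^ 2 + 1` and `m ^ 2 + 3` are both chosen for infinitely many `m`, and for some
`κ > 0` the number of such `m ≤ x` is at least `κ E(x)` for all large `x`.  (2) If only integers without prime factors
at most `z(n)` are chosen and the conditional probabilities are asymptotic to `V(z(n + 1)) / log n`, then this number
is almost surely asymptotic to `E(x)`.  (3), (4) Lower bounds for the expected numbers `E(x)`.  (5) The infinite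
product `G = ∏_q (1 - r(q)/q) (1 - 1/q)⁻²` over the primes, in which `r(q)` is the number of the roots of
`(m ^ 2 + 1) (m ^ 2 + 3)` modulo `q`, converges to a positive number; if `z` is monotone and unbounded with
`z(n) ≤ n ^ ε` for large `n` for every `ε > 0` and `log z(2n) / log z(n) → 1`, then `E(x)`, and in the models of (2)
almost surely the number of the `m ≤ x` for which `m ^ 2 + 1` and `m ^ 2 + 3` are both chosen, is asymptotic to
`(G / 4) x / (log x) ^ 2`. -/
theorem result : ∃ θ₀ : ℝ, 0 < θ₀ ∧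
    (∀ {Ω : Type} [mΩ : MeasurableSpace Ω] (μ : Measure Ω) [IsProbabilityMeasure μ]
      (ℱ : Filtration ℕ mΩ) (S : ℕ → Set Ω), (∀ n, MeasurableSet[ℱ n] (S n)) →
      ∀ z : ℕ → ℕ, (∀ᶠ n : ℕ in atTop, (z n : ℝ) ≤ (n : ℝ) ^ θ₀) →
      ((∀ᵐ ω ∂μ, ∃ c : ℝ, 0 < c ∧ ∀ᶠ n : ℕ in atTop, Rough z (n + 1) →
          c * V (z (n + 1)) ≤ (μ[(S (n + 1)).indicator (fun _ => (1 : ℝ)) | ℱ n]) ω * Real.log n) →
        ∀ᵐ ω ∂μ, {m : ℕ | ω ∈ S (m ^ 2 + 1) ∧ ω ∈ S (m ^ 2 + 3)}.Infinite ∧
          ∃ κ : ℝ, 0 < κ ∧ ∀ᶠ x : ℕ in atTop, κ * expd2 z x ≤ cnt2 S ω x) ∧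
      ((∀ n, ¬ Rough z n → S n = ∅) →
        (∀ᵐ ω ∂μ, Tendsto (fun n : ℕ => (μ[(S (n + 1)).indicator (fun _ => (1 : ℝ)) | ℱ n]) ω * Real.log n /
          V (z (n + 1))) (atTop ⊓ 𝓟 {n : ℕ | Rough z (n + 1)}) (𝓝 1)) →
        ∀ᵐ ω ∂μ, Tendsto (fun x : ℕ => (cnt2 S ω x : ℝ) / expd2 z x) atTop (𝓝 1))) ∧
    (∃ κ : ℝ, 0 < κ ∧ ∀ z : ℕ → ℕ, (∀ᶠ n : ℕ in atTop, (z n : ℝ) ≤ (n : ℝ) ^ θ₀) →
      ∀ᶠ x : ℕ in atTop, κ * (x / Real.log x ^ 4) ≤ expd2 z x) ∧
    (∀ θ' : ℝ, 0 < θ' → ∃ κ : ℝ, 0 < κ ∧ ∀ z : ℕ → ℕ, (∀ᶠ n : ℕ in atTop, (z n : ℝ) ≤ (n : ℝ) ^ θ₀) →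
      (∀ᶠ n : ℕ in atTop, (n : ℝ) ^ θ' ≤ z n) → ∀ᶠ x : ℕ in atTop, κ * (x / Real.log x ^ 2) ≤ expd2 z x) ∧
    ∃ G : ℝ, 0 < G ∧ Tendsto (fun y : ℕ => ∏ q ∈ (Icc 1 y).filter Nat.Prime,
        (1 - (((range q).filter fun r => q ∣ (r ^ 2 + 1) * (r ^ 2 + 3)).card : ℝ) / q) / (1 - 1 / (q : ℝ)) ^ 2)
        atTop (𝓝 G) ∧
      ∀ z : ℕ → ℕ, Monotone z → Tendsto z atTop atTop →
        (∀ ε : ℝ, 0 < ε → ∀ᶠ n : ℕ in atTop, (z n : ℝ) ≤ (n : ℝ) ^ ε) →
        Tendsto (fun n : ℕ => Real.log (z (2 * n)) / Real.log (z n)) atTop (𝓝 1) →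
        Tendsto (fun x : ℕ => expd2 z x / (x / Real.log x ^ 2)) atTop (𝓝 (G / 4)) ∧
        ∀ {Ω : Type} [mΩ : MeasurableSpace Ω] (μ : Measure Ω) [IsProbabilityMeasure μ]
          (ℱ : Filtration ℕ mΩ) (S : ℕ → Set Ω), (∀ n, MeasurableSet[ℱ n] (S n)) →
          (∀ n, ¬ Rough z n → S n = ∅) →
          (∀ᵐ ω ∂μ, Tendsto (fun n : ℕ => (μ[(S (n + 1)).indicator (fun _ => (1 : ℝ)) | ℱ n]) ω * Real.log n /
            V (z (n + 1))) (atTop ⊓ 𝓟 {n : ℕ | Rough z (n + 1)}) (𝓝 1)) →
          ∀ᵐ ω ∂μ, Tendsto (fun x : ℕ => (cnt2 S ω x : ℝ) / (x / Real.log x ^ 2)) atTop (𝓝 (G / 4)) := by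
  obtain ⟨θ₁, h1, h2⟩ := ex_small
  obtain ⟨θ₂, h3, ⟨κ, hκ, h4⟩, h5⟩ := exp_low2
  have hmin : 0 < min θ₁ θ₂ := lt_min h1 h3
  have key : ∀ z : ℕ → ℕ, (∀ᶠ n : ℕ in atTop, (z n : ℝ) ≤ (n : ℝ) ^ (min θ₁ θ₂)) → ∀ θ : ℝ, min θ₁ θ₂ ≤ θ →
      ∀ᶠ n : ℕ in atTop, (z n : ℝ) ≤ (n : ℝ) ^ θ := by
    intro z hz θ hθ
    filter_upwards [hz, eventually_ge_atTop 1] with n g1 g2
    exact g1.trans (Real.rpow_le_rpow_of_exponent_le (by exact_mod_cast g2) hθ)
  refine ⟨min θ₁ θ₂, hmin, ?_, ⟨κ, hκ, fun z hz => h4 z (key z hz θ₂ (min_le_right _ _))⟩, ?_, ?_⟩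
  · intro Ω mΩ μ hμ ℱ S hS z hz
    exact ⟨fun h => two_low (h2 z (key z hz θ₁ (min_le_left _ _))) hκ (h4 z (key z hz θ₂ (min_le_right _ _))) hS h,
      fun hr h => two_lln (h2 z (key z hz θ₁ (min_le_left _ _))) hκ (h4 z (key z hz θ₂ (min_le_right _ _))) hS hr h⟩
  · intro θ' hθ'
    obtain ⟨κ', hκ', h6⟩ := h5 θ' hθ'
    exact ⟨κ', hκ', fun z hz hz' => h6 z (key z hz θ₂ (min_le_right _ _)) hz'⟩
  · obtain ⟨G, hG, hGl⟩ := hl_const
    refine ⟨G, hG, ?_, fun z hm hi hs hr => ?_⟩
    · refine hGl.congr fun y => ?_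
      rw [prod_gg]
      refine prod_congr rfl fun q _ => ?_
      unfold gg
      rw [inv_pow, ← div_eq_mul_inv, one_div]
      rfl
    · have hE := expd2_lim hm hi hs hr hGl
      refine ⟨hE, ?_⟩
      intro Ω mΩ μ hμ ℱ S hS hro h
      have hz := hs (min θ₁ θ₂) hmin
      have h7 := two_lln (h2 z (key z hz θ₁ (min_le_left _ _))) hκ (h4 z (key z hz θ₂ (min_le_right _ _))) hS hro h
      filter_upwards [h7] with ω h8
      have h9 := h8.mul hE
      rw [one_mul] at h9
      refine h9.congr' ?_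
      filter_upwards [h4 z (key z hz θ₂ (min_le_right _ _)), eventually_ge_atTop 3] with x g2 g3
      have hx3 : (3 : ℝ) ≤ x := by exact_mod_cast g3
      have hlx : 0 < Real.log x := Real.log_pos (by linarith)
      have g4 : 0 < expd2 z x := lt_of_lt_of_le (by positivity) g2
      exact div_mul_div_cancel₀ g4.ne'

end Pool.Agent.Results.MP_2dba45_nt.SequentialSieveModels
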