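import Pool.Agent.D0H41.LP.Fin4
import Pool.Agent.D0H98.LP.Beta3
import Pool.Agent.D0H98.LP.Rep
import Pool.Agent.D0H65.LP.Klo
import Pool.Agent.D0H65.LP.Siv
import Pool.Agent.D0H65.LP.Top
import Pool.Agent.D0H34.LP.One
import Pool.Agent.D0H13.LP.Mer
import Pool.Agent.D0H41.LP.Squ

/-!
# Pairs of squarefree almost primes `m ^ 2 + 1`, `m ^ 2 + 3`, both with a large prime factor

There are `δ, κ > 0` and `r` such that for all large `x` there are at least `κ x / (log x) ^ 2`
positive integers `m ≤ x` (the expected order of magnitude for such `m`, and for the `m` of the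
problem) for which `m ^ 2 + 1` and `m ^ 2 + 3` are both squarefree and have at most `r` prime
factors, all of them larger than `x ^ δ`, and BOTH have a prime factor larger than `x ^ (1 + δ)`.

Proof. Let `A` be the set of the `m ≤ x` for which `(m ^ 2 + 1) (m ^ 2 + 3)` has no prime factor
`≤ z = x ^ η`. For `a = 1, 3` the sum of `log p` over the prime factors `p ≤ x ^ (1 - ε)` of
`m ^ 2 + a`, `m ∈ A`, is on average at most `(1 + o(1)) log x` (fundamental lemma), so at least
one half of the `m ∈ A` have a prime factor larger than `x ^ (1 + δ)`, up to `o(1)`, provided that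
the primes close to `x` can be neglected. Each of the two halves alone is not enough: the trivial
count of the two sets gives `1 / 2 + 1 / 2 = 1` exactly. The gain comes from the `m ∈ A` for which
the large prime factor is larger than `x ^ (2 - δ')`: then `m ^ 2 + a` has no other prime factor
larger than `2 x ^ δ'`, and a sieve shows that the proportion of these `m` in `A` is `O(δ')`; for all
others the logarithm of the large prime is at most `(2 - δ') log x`, so that more than
`1 / 2 + c δ'` of the elements of `A` are needed. The primes `p` in `[x ^ (1 - ε), x ^ (1 + δ)]` are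
dealt with as follows: `p = b ^ 2 + a c ^ 2`, and for `M = max (b, c)`, `y = min (b, c)` the
`m ≡ ± b / c (p)` correspond to the short `s` with `y s ≡ 1 (M)`, `m = ± (y - p s) / M` or
`± (p s - a y) / M`. So one has to bound the number of points `(y, s)` on the modular hyperbolas
`y s ≡ 1 (M)` for which `p` has no small prime factor and `m ^ 2 + 1`, `m ^ 2 + 3` have no prime
factor `≤ z`: this is a sieve of dimension two variables, with the level of distribution given by
Weil's bound for (incomplete) Kloosterman sums modulo the squarefree part of `M`, in progressions.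
It gives the right order `O(x / (log x) (log z) ^ 2)` for every dyadic interval.
-/

set_option autoImplicit false

namespace Pool.Agent.Results.MP_2dba45_nt.SimultaneousLargePrimeFactors

open Filter

/-- **Both `m ^ 2 + 1` and `m ^ 2 + 3` squarefree almost primes with a prime factor larger than
`x ^ (1 + δ)`**, for the expected order of magnitude of integers `m ≤ x`. -/
theorem result : ∃ (δ κ : ℝ) (r : ℕ), 0 < δ ∧ 0 < κ ∧ ∀ᶠ x : ℕ in atTop,
    κ * x / Real.log x ^ 2 ≤ (Nat.card {m : ℕ // 1 ≤ m ∧ m ≤ x ∧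
      Squarefree (m ^ 2 + 1) ∧ Squarefree (m ^ 2 + 3) ∧
      (m ^ 2 + 1).primeFactors.card ≤ r ∧ (m ^ 2 + 3).primeFactors.card ≤ r ∧
      (∀ q : ℕ, q.Prime → q ∣ (m ^ 2 + 1) * (m ^ 2 + 3) → (x : ℝ) ^ δ < q) ∧
      (∃ p : ℕ, p.Prime ∧ p ∣ m ^ 2 + 1 ∧ (x : ℝ) ^ (1 + δ) < p) ∧
      (∃ p : ℕ, p.Prime ∧ p ∣ m ^ 2 + 3 ∧ (x : ℝ) ^ (1 + δ) < p)} : ℝ) := by
  classical
  have hP := Pool.Agent.D0H13.LP.t_MERP
  have hB := Pool.Agent.D0H98.LP.t_BETA Pool.Agent.D0H98.LP.t_REP
    (Pool.Agent.D0H34.LP.t_ONE Pool.Agent.D0H65.LP.t_KLO) hP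
  obtain ⟨δ, κ, r, hδ, hκ, h⟩ := Pool.Agent.D0H41.LP.t_FIN hB Pool.Agent.D0H65.LP.t_SIV
    Pool.Agent.D0H13.LP.t_MERL hP (Pool.Agent.D0H65.LP.t_TOP hP) Pool.Agent.D0H41.LP.t_SQU
  refine ⟨δ, κ, r, hδ, hκ, ?_⟩
  filter_upwards [h] with x hx
  refine hx.trans (le_of_eq ?_)
  rw [← Nat.card_eq_finsetCard]
  congr 1
  apply Nat.card_congr
  apply Equiv.subtypeEquivRight
  intro m
  simp only [Finset.mem_filter, Finset.mem_Icc, and_assoc]

end Pool.Agent.Results.MP_2dba45_nt.SimultaneousLargePrimeFactors
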