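import Pool.Agent.D0H51.SS.Tr
import Pool.Agent.Results.MP_2dba45_nt.SimultaneousLargePrimeFactors

/-!
# MP_2dba45_nt: `m ^ 2 + 1` and `m ^ 2 + 3` along almost every sparse sequence

For every real `h ≥ 1` and almost every real `α > 0` the expected order of magnitude `N / (log N) ^ 2` of the `n ≤ N`
is such that for `m = ⌊α n ^ h⌋` both `m ^ 2 + 1` and `m ^ 2 + 3` are squarefree with a bounded number of prime
factors, all larger than `m ^ δ`, and both have a prime factor larger than `m ^ (1 + δ)`.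

Proof: the theorem of helper41 (SimultaneousLargePrimeFactors) for all integers `m` and the transfer of lower bounds for
the counting function of an arbitrary set to almost all sequences `⌊α n ^ h⌋` (`Pool.Agent.D0H51.SS.transfer`, from the
universal sampling theorem of helper91). The saving of a power of `N` in that theorem is essential, since the set in
question has density zero.
-/

set_option autoImplicit false

namespace Pool.Agent.Results.MP_2dba45_nt.SparseSequences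

open Filter MeasureTheory Topology Finset

/-- both `m ^ 2 + 1` and `m ^ 2 + 3` are squarefree, with at most `r` prime factors, all larger than `m ^ δ`, and both
have a prime factor larger than `m ^ (1 + δ)` -/
def Good (δ : ℝ) (r m : ℕ) : Prop :=
  Squarefree (m ^ 2 + 1) ∧ Squarefree (m ^ 2 + 3) ∧
    (m ^ 2 + 1).primeFactors.card ≤ r ∧ (m ^ 2 + 3).primeFactors.card ≤ r ∧
    (∀ q : ℕ, q.Prime → q ∣ (m ^ 2 + 1) * (m ^ 2 + 3) → (m : ℝ) ^ δ < q) ∧
    (∃ p : ℕ, p.Prime ∧ p ∣ m ^ 2 + 1 ∧ (m : ℝ) ^ (1 + δ) < p) ∧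
    (∃ p : ℕ, p.Prime ∧ p ∣ m ^ 2 + 3 ∧ (m : ℝ) ^ (1 + δ) < p)

open Classical in
/-- **Main result.** -/
theorem result : ∃ (δ : ℝ) (r : ℕ), 0 < δ ∧ ∀ h : ℝ, 1 ≤ h → ∃ κ : ℝ, 0 < κ ∧ ∀ᵐ α : ℝ, 0 < α →
    ∀ᶠ N : ℕ in atTop, κ * N / Real.log N ^ 2 ≤
      (((Icc 1 N).filter (fun n : ℕ => Good δ r ⌊α * (n : ℝ) ^ h⌋₊)).card : ℝ) := by
  obtain ⟨δ, κ, r, hδ, hκ, hst⟩ := Pool.Agent.Results.MP_2dba45_nt.SimultaneousLargePrimeFactors.result
  refine ⟨δ, r, hδ, fun h hh => ⟨κ / (16 * h ^ 3), by positivity, ?_⟩⟩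
  have hh0 : 0 < h := by linarith
  obtain ⟨c, hc0, hc1, htr⟩ := Pool.Agent.D0H51.SS.transfer h hh
  filter_upwards [htr fun _ => {m | Good δ r m}] with α hα hα0
  have hXt : Tendsto (fun M : ℕ => α * (M : ℝ) ^ h) atTop atTop :=
    ((tendsto_rpow_atTop hh0).comp tendsto_natCast_atTop_atTop).const_mul_atTop hα0
  have hfl : Tendsto (fun M : ℕ => ⌊α * (M : ℝ) ^ h⌋₊ - 1) atTop atTop :=
    (tendsto_sub_atTop_nat 1).comp (tendsto_nat_floor_atTop.comp hXt)
  filter_upwards [hα hα0, hfl.eventually hst, hXt.eventually_ge_atTop 4, eventually_ge_atTop 1,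
    Pool.Agent.W301.SS.ev_log 2 (16 * h ^ 3 / κ) c hc0,
    (Real.tendsto_log_atTop.comp tendsto_natCast_atTop_atTop).eventually_ge_atTop (|Real.log α| + 1)]
    with N hN h3 h4 hN1 h5 h6
  have hN0 : (0 : ℝ) < N := by exact_mod_cast hN1
  simp only [Function.comp] at h6
  have hbase := (hN 0 (by rw [Nat.cast_zero]; positivity)).1
  obtain ⟨X, hX⟩ : ∃ X : ℝ, X = α * (N : ℝ) ^ h := ⟨_, rfl⟩
  have hlX : Real.log X = Real.log α + h * Real.log N := by
    rw [hX, Real.log_mul hα0.ne' (by positivity), Real.log_rpow hN0]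
  rw [← hX] at h3 h4 hbase
  have hX0 : 0 < X := by linarith
  have hfl1 : 1 ≤ ⌊X⌋₊ := Nat.one_le_floor_iff X |>.2 (by linarith)
  obtain ⟨Y, hY⟩ : ∃ Y : ℕ, Y = ⌊X⌋₊ - 1 := ⟨_, rfl⟩
  rw [← hY] at h3
  have hY1 : (Y : ℝ) = ⌊X⌋₊ - 1 := by
    rw [hY, Nat.cast_sub hfl1, Nat.cast_one]
  have hXl : X < ⌊X⌋₊ + 1 := Nat.lt_floor_add_one X
  have hXu : (⌊X⌋₊ : ℝ) ≤ X := Nat.floor_le hX0.le
  have hY2 : X / 2 ≤ Y := by linarith
  have hY0 : (2 : ℝ) ≤ Y := by linarith
  have hlog0 : 0 < Real.log Y := Real.log_pos (by linarith)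
  have hlogN : 0 < Real.log N := by linarith [abs_nonneg (Real.log α)]
  have hlog1 : Real.log Y ≤ 2 * h * Real.log N := by
    have h7 : Real.log Y ≤ Real.log X := Real.log_le_log (by linarith) (by linarith)
    have h8 := le_abs_self (Real.log α)
    rw [hlX] at h7
    nlinarith
  have hcard : κ * (X / 2) / (2 * h * Real.log N) ^ 2 ≤
      (((range ⌊X⌋₊).filter (· ∈ {m | Good δ r m})).card : ℝ) := by
    calc κ * (X / 2) / (2 * h * Real.log N) ^ 2 ≤ κ * Y / Real.log Y ^ 2 := by gcongr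
      _ ≤ _ := h3
      _ ≤ _ := by
          refine Nat.cast_le.2 ?_
          rw [← Set.ncard_coe_finset]
          refine le_trans (le_of_eq (Nat.card_coe_set_eq _)) (Set.ncard_le_ncard ?_ (Finset.finite_toSet _))
          rintro m ⟨g1, g2, g3, g4, g5, g6, g7, ⟨p, g8, g9, g10⟩, ⟨p', g11, g12, g13⟩⟩
          rw [Finset.mem_coe, Finset.mem_filter, Finset.mem_range]
          have hmY : (m : ℝ) ≤ Y := by exact_mod_cast g2
          refine ⟨by omega, g3, g4, g5, g6, fun q hq hd => lt_of_le_of_lt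
            (Real.rpow_le_rpow (Nat.cast_nonneg _) hmY hδ.le) (g7 q hq hd),
            ⟨p, g8, g9, lt_of_le_of_lt (Real.rpow_le_rpow (Nat.cast_nonneg _) hmY (by linarith)) g10⟩,
            ⟨p', g11, g12, lt_of_le_of_lt (Real.rpow_le_rpow (Nat.cast_nonneg _) hmY (by linarith)) g13⟩⟩
  have h9 : κ / (8 * h ^ 3) * (N / Real.log N ^ 2) ≤
      ((N : ℝ) / (h * X)) * (((range ⌊X⌋₊).filter (· ∈ {m | Good δ r m})).card : ℝ) := by
    calc κ / (8 * h ^ 3) * (N / Real.log N ^ 2) = ((N : ℝ) / (h * X)) * (κ * (X / 2) / (2 * h * Real.log N) ^ 2) := by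
          field_simp
          norm_num
      _ ≤ _ := mul_le_mul_of_nonneg_left hcard (by positivity)
  have h10 : (N : ℝ) ^ (1 - c) ≤ κ / (16 * h ^ 3) * (N / Real.log N ^ 2) := by
    have e : (N : ℝ) ^ (1 - c) = N / (N : ℝ) ^ c := by
      rw [Real.rpow_sub hN0, Real.rpow_one]
    rw [e, div_le_iff₀ (by positivity)]
    calc (N : ℝ) = κ / (16 * h ^ 3) * (N / Real.log N ^ 2) * (16 * h ^ 3 / κ * Real.log N ^ 2) := by
          field_simp
      _ ≤ _ := mul_le_mul_of_nonneg_left h5 (by positivity)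
  have h11 : κ / (8 * h ^ 3) * (N / Real.log N ^ 2) =
      κ / (16 * h ^ 3) * (N / Real.log N ^ 2) + κ / (16 * h ^ 3) * (N / Real.log N ^ 2) := by
    field_simp
    norm_num
  have h12 : κ / (16 * h ^ 3) * N / Real.log N ^ 2 = κ / (16 * h ^ 3) * (N / Real.log N ^ 2) := by ring
  rw [h12]
  have h13 := hbase
  simp only [Set.mem_setOf_eq] at h13 h9
  linarith

end Pool.Agent.Results.MP_2dba45_nt.SparseSequences
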